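import Pool.Agent.Lib.MP_b5021c_nt.IfaceK3

/-!
# Row TCE: coefficients of `toE D`
-/

set_option autoImplicit false

namespace Pool.Agent.MP_b5021c_nt.H19

open Polynomial Pool.Agent.B5 Pool.Agent.MP_b5021c_nt

theorem ind_inj' {ι : Type} [DecidableEq ι] {S T : Finset ι} (h : ind S = ind T) : S = T := by
  ext i
  have h1 := congrFun h i
  simp only [ind] at h1
  by_cases hS : i ∈ S <;> by_cases hT : i ∈ T <;> simp_all

theorem toE_coeff {ι : Type} [Fintype ι] [DecidableEq ι] (D : Finset ι → ℤ[X]) (a : ι → ℤ) :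
    (toE D).coeff a = ∑ S : Finset ι,
      if ind S = a then Polynomial.toLaurent ((D S).map (Int.castRingHom Eis)) else 0 := by
  classical
  rw [toE, AddMonoidAlgebra.coeff_sum, Finsupp.finsetSum_apply]
  refine Finset.sum_congr rfl fun S _ => ?_
  rw [AddMonoidAlgebra.coeff_single, Finsupp.single_apply]

/-- Row TCE. -/
theorem tce : TceS := by
  intro ι _ _ D
  constructor
  · intro S
    rw [toE_coeff, Finset.sum_eq_single S]
    · rw [if_pos rfl]
    · intro T _ hT
      rw [if_neg fun h => hT (ind_inj' h)]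
    · intro h
      exact absurd (Finset.mem_univ S) h
  · intro a ha
    rw [toE_coeff] at ha
    obtain ⟨S, -, hS⟩ := Finset.exists_ne_zero_of_sum_ne_zero ha
    by_cases h : ind S = a
    · rw [if_pos h] at hS
      refine ⟨S, h.symm, fun h0 => hS ?_⟩
      rw [h0, Polynomial.map_zero, map_zero]
    · rw [if_neg h] at hS
      exact absurd rfl hS

end Pool.Agent.MP_b5021c_nt.H19
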