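import Pool.Agent.Lib.MP_b5021c_nt.IfaceK2

/-!
# MP_b5021c_nt, row HPF: the completion `D + w_none D^*` is polydisc-free
-/

namespace Pool.Agent.MP_b5021c_nt.H19

open Polynomial Pool.Agent.B5 Pool.Agent.MP_b5021c_nt

/-- The value of the reflected polynomial on the unit circle. -/
theorem pv_reflect (p : ℤ[X]) (N : ℕ) (hp : p.natDegree ≤ N) (z : ℂ) (hz : ‖z‖ = 1) :
    pv (p.reflect N) z = z ^ N * starRingEnd ℂ (pv p z) := by
  have hz0 : z ≠ 0 := by
    intro h
    rw [h, norm_zero] at hz
    exact zero_ne_one hz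
  have hzz : z * starRingEnd ℂ z = 1 := by
    rw [Complex.mul_conj, Complex.normSq_eq_norm_sq, hz]
    norm_num
  have hzz' : starRingEnd ℂ z * z = 1 := by rw [mul_comm]; exact hzz
  let _ : Invertible (starRingEnd ℂ z) := ⟨z, hzz, hzz'⟩
  have h1 := eval₂_reflect_mul_pow (algebraMap ℤ ℂ) (starRingEnd ℂ z) N p hp
  have h2 : ⅟ (starRingEnd ℂ z) = z := rfl
  rw [h2] at h1
  have h3 : eval₂ (algebraMap ℤ ℂ) (starRingEnd ℂ z) p = starRingEnd ℂ (pv p z) := by
    unfold pv
    rw [aeval_def, hom_eval₂]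
    congr 1
    exact RingHom.ext_int _ _
  rw [h3] at h1
  have h4 : pv (p.reflect N) z = eval₂ (algebraMap ℤ ℂ) z (p.reflect N) := aeval_def _ _
  rw [h4, ← h1, mul_comm, mul_assoc, ← mul_pow, hzz', one_pow, mul_one]

theorem sum_opt {ι : Type} [Fintype ι] [DecidableEq ι] (f : Finset (Option ι) → ℂ) :
    ∑ S : Finset (Option ι), f S =
      ∑ S : Finset ι, f (S.map Function.Embedding.some) + ∑ S : Finset ι, f (Finset.insertNone S) := by
  rw [← Finset.sum_filter_not_add_sum_filter Finset.univ (fun S : Finset (Option ι) => none ∈ S)]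
  congr 1
  · refine Finset.sum_bij' (fun S _ => Finset.eraseNone S)
      (fun S _ => S.map Function.Embedding.some) ?_ ?_ ?_ ?_ ?_
    · intro S _
      exact Finset.mem_univ _
    · intro S _
      simp
    · intro S hS
      rw [Finset.mem_filter] at hS
      rw [Finset.map_some_eraseNone]
      exact Finset.erase_eq_of_notMem hS.2
    · intro S _
      exact Finset.eraseNone_map_some S
    · intro S hS
      rw [Finset.mem_filter] at hS
      rw [Finset.map_some_eraseNone, Finset.erase_eq_of_notMem hS.2]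
  · refine Finset.sum_bij' (fun S _ => Finset.eraseNone S)
      (fun S _ => Finset.insertNone S) ?_ ?_ ?_ ?_ ?_
    · intro S _
      exact Finset.mem_univ _
    · intro S _
      simp
    · intro S hS
      rw [Finset.mem_filter] at hS
      rw [Finset.insertNone_eraseNone]
      exact Finset.insert_eq_of_mem hS.2
    · intro S _
      exact Finset.eraseNone_insertNone S
    · intro S hS
      rw [Finset.mem_filter] at hS
      rw [Finset.insertNone_eraseNone, Finset.insert_eq_of_mem hS.2]

/-- The value of `D + w_none E`. -/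
theorem mv_join {ι : Type} [Fintype ι] [DecidableEq ι] (D E : Finset ι → ℤ[X]) (z : ℂ)
    (w : Option ι → ℂ) :
    mv (join D E) z w = mv D z (fun i => w (some i)) + w none * mv E z (fun i => w (some i)) := by
  unfold mv
  rw [sum_opt, Finset.mul_sum]
  congr 1
  · refine Finset.sum_congr rfl fun S _ => ?_
    have h4 : join D E (S.map Function.Embedding.some) = D S := by
      simp [join]
    rw [h4, Finset.prod_map]
    rfl
  · refine Finset.sum_congr rfl fun S _ => ?_
    have h4 : join D E (Finset.insertNone S) = E S := by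
      simp [join]
    rw [h4, Finset.prod_insertNone]
    ring

/-- HPF. -/
theorem hpf (h : StaS) : HpfS := by
  intro ι _ _ D N hD hN z w hz hw
  rw [mv_join]
  set w' : ι → ℂ := fun i => w (some i) with hw'
  have hw1 : ∀ i, ‖w' i‖ < 1 := fun i => hw (some i)
  have h1 : mv D z w' ≠ 0 := hD z w' hz hw1
  have h2 := h ι (fun S => pv (D S) z) (fun v hv => hD z v hz hv) w' (fun i => (hw1 i).le)
  have h3 : mv (rev N D) z w' = z ^ N * ∑ S : Finset ι, starRingEnd ℂ (pv (D Sᶜ) z) * ∏ i ∈ S, w' i := by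
    unfold mv rev
    rw [Finset.mul_sum]
    refine Finset.sum_congr rfl fun S _ => ?_
    rw [pv_reflect _ _ (hN _) _ hz, mul_assoc]
  have h4 : ‖mv (rev N D) z w'‖ ≤ ‖mv D z w'‖ := by
    rw [h3, norm_mul, norm_pow, hz, one_pow, one_mul]
    exact h2
  intro h0
  have h5 : mv D z w' = -(w none * mv (rev N D) z w') := eq_neg_of_add_eq_zero_left h0
  have h6 : ‖mv D z w'‖ = ‖w none‖ * ‖mv (rev N D) z w'‖ := by
    rw [h5, norm_neg, norm_mul]
  have h7 : 0 < ‖mv D z w'‖ := norm_pos_iff.2 h1
  have h8 : ‖w none‖ * ‖mv (rev N D) z w'‖ < ‖mv D z w'‖ := by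
    calc ‖w none‖ * ‖mv (rev N D) z w'‖ ≤ ‖w none‖ * ‖mv D z w'‖ :=
          mul_le_mul_of_nonneg_left h4 (norm_nonneg _)
      _ < 1 * ‖mv D z w'‖ := mul_lt_mul_of_pos_right (hw none) h7
      _ = ‖mv D z w'‖ := one_mul _
  rw [← h6] at h8
  exact lt_irrefl _ h8

end Pool.Agent.MP_b5021c_nt.H19
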